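import Pool.Agent.Lib.H88B.Defs

/-!
H88C: the group side of MP_a8e959_al for all picky elements (ports of Lib/H88B without the condition on the powers of `x`). Set-up.
-/

open scoped Classical ComplexConjugate BigOperators

noncomputable section

namespace Pool.Agent.Lib.H88C

/-- As `H90Q.Setup`, without the hypothesis on `H / (L ∩ H)`. -/
structure Setup3 {G : Type*} [Group G] (p : ℕ) (L P H : Subgroup G) (x : G) : Prop where
  hLn : L.Normal
  hLp : ¬ p ∣ Nat.card L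
  hPp : IsPGroup p P
  hPab : ∀ a ∈ P, ∀ b ∈ P, a * b = b * a
  hPL : (P ⊔ L).Normal
  hHN : H ≤ Subgroup.normalizer (P : Set G)
  hHp : ¬ p ∣ Nat.card H
  hN : ∀ g ∈ Subgroup.normalizer (P : Set G), ∃ u ∈ P, ∃ h ∈ H, g = u * h
  hG : ∀ g : G, ∃ l ∈ L, ∃ u ∈ P, ∃ h ∈ H, g = l * u * h
  hC : L ⊓ H = L ⊓ Subgroup.centralizer (P : Set G)
  hCx : L ⊓ Subgroup.centralizer {x} = L ⊓ Subgroup.centralizer (P : Set G)
  hxP : x ∈ P
  hxN : Subgroup.centralizer {x} ≤ Subgroup.normalizer (P : Set G)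

end Pool.Agent.Lib.H88C
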