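import Pool.Agent.Lib.H88C.G2
import Pool.Agent.Lib.H90Q.K13

/-!
# MP_a8e959_al, Theorem B: all blocks together (port of H90Q/K13)
-/

open scoped Classical ComplexConjugate BigOperators

noncomputable section

namespace Pool.Agent.Lib.H88C

open Pool.Agent.Lib.H90Q Pool.Agent.Lib.H88B

variable {G : Type*} [Group G] [Fintype G]

/-- The index type of the blocks. -/
private def G3Idx (p : ℕ) (L P : Subgroup G) : Type _ :=
  {q : (G → ℂ) × (G → ℂ) × (G → ℂ) × (G → ℂ) // q.1 ∈ IrrS L ∧ (∀ u ∈ P, cj u q.1 = q.1) ∧ GC p L (P : Set G) q.1 q.2.1 ∧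
    CanExt p P L q.1 q.2.2.1 ∧ q.2.2.2 ∈ LinS P ⊥}

/-- All blocks together: `glue` with the index type of all `(θ, θs, θh, ll)`. Disjointness: `blk_conj` for `⊤` gives `b ∈ H` with `θ' = cj b θ`, `ll' = cj b ll`, then `θh' = cj b θh` (`canExt_unique`, `canExt_cj`), `θs' = cj b θs` (`gc_cj`, `uniq`),
`tens P C 1 θs' = cj b (tens P C 1 θs)` (`tens_cj`), and the blocks are equal by `blk_cj` (for `⊤` and for `N`). For `N` the same with `gc_cj` and `inj`. Union of the blocks of `⊤`: `blk_over`, `blk_cover`. Union of the blocks of `N`: every `ψ ∈ Irr N` lies over some `θs ∈ Irr C`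
(`under_exists`), which is the correspondent of some `θ` (`surj`), `blk_cover` with `tri_norm3`. -/
theorem main_ambient3 {p : ℕ} (hp : p.Prime) {L P H : Subgroup G} {x : G} (h : Setup3 p L P H x) (hgc : GCBij p L P)
    (hcan : ∀ θ ∈ IrrS L, (∀ u ∈ P, cj u θ = θ) → ∃ θh, CanExt p P L θ θh) (hcore : CoreStmt2 p L P H x) :
    ∃ f : (G → ℂ) → (G → ℂ),
      Set.BijOn f {χ | χ ∈ IrrS ⊤ ∧ ∃ θ ∈ IrrS L, (∀ u ∈ P, cj u θ = θ) ∧ Over L χ θ} (IrrS (Subgroup.normalizer (P : Set G))) ∧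
      ∀ χ, (χ ∈ IrrS ⊤ ∧ ∃ θ ∈ IrrS L, (∀ u ∈ P, cj u θ = θ) ∧ Over L χ θ) → Rel p H x χ (f χ) := by
  have T1 := tri_top3 h
  have T2 := tri_norm3 h
  have hC : CM L (P : Set G) = L ⊓ H := h.hC.symm
  have hnL : ∀ b : G, Nz b L := fun b => T1.hL b (Subgroup.mem_top b)
  have hnP : ∀ b ∈ H, Nz b P := T1.hHP
  have hcomm : ∀ c ∈ L ⊓ H, ∀ u ∈ P, c * u = u * c := fun c hc => (T1.hC c hc.1).mp hc.2
  have hPC : ∀ u ∈ P, u ∈ L ⊓ H → u = 1 := fun u hu huc => tri_PL hp T1 u hu huc.1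
  have hPcj : ∀ {u b : G}, u ∈ P → b ∈ H → b⁻¹ * u * b ∈ P := by
    intro u b hu hb
    rw [hnP b hb]
    have e : b * (b⁻¹ * u * b) * b⁻¹ = u := by group
    rw [e]; exact hu
  have hinvcj : ∀ {b : G} {θ : G → ℂ}, b ∈ H → (∀ u ∈ P, cj u θ = θ) → ∀ u ∈ P, cj u (cj b θ) = cj b θ := by
    intro b θ hb hinv u hu
    have e : u * b = b * (b⁻¹ * u * b) := by group
    rw [cj_cj, e, ← cj_cj, hinv _ (hPcj hu hb)]
  let B : G3Idx p L P → Set (G → ℂ) := fun i => Blk ⊤ P L i.1.2.2.1 i.1.2.2.2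
  let B' : G3Idx p L P → Set (G → ℂ) := fun i =>
    Blk (Subgroup.normalizer (P : Set G)) P (L ⊓ H) (tens P (L ⊓ H) (fun _ => 1) i.1.2.1) i.1.2.2.2
  -- conjugate data give equal blocks
  have key : ∀ (i j : G3Idx p L P) (b : G), b ∈ H → j.1.1 = cj b i.1.1 → j.1.2.2.2 = cj b i.1.2.2.2 → B i = B j ∧ B' i = B' j := by
    rintro ⟨⟨θ, θs, θh, ll⟩, hθ, hinv, hGC, hθh, hl⟩ ⟨⟨θ', θs', θh', ll'⟩, hθ', hinv', hGC', hθh', hl'⟩ b hb e1 e2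
    change θ' = cj b θ at e1
    change ll' = cj b ll at e2
    subst e1 e2
    have e3 : cj b θh = θh' := canExt_unique hp h.hLp h.hPp h.hPab (fun u _ => hnL u) hθ' (canExt_cj (hnP b hb) (hnL b) hθh) hθh'
    have e4 : cj b θs = θs' := hgc.uniq _ _ _ hinv' (gc_cj (hnL b) (hnP b hb) hGC) hGC'
    subst e3 e4
    refine ⟨(blk_cj T1 hb θh ll).symm, ?_⟩
    have e5 : tens P (L ⊓ H) (fun _ => 1) (cj b θs) = cj b (tens P (L ⊓ H) (fun _ => 1) θs) := by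
      rw [tens_cj (hnP b hb) (T2.hL b (T2.hHK hb))]
      rfl
    change Blk (Subgroup.normalizer (P : Set G)) P (L ⊓ H) (tens P (L ⊓ H) (fun _ => 1) θs) ll =
      Blk (Subgroup.normalizer (P : Set G)) P (L ⊓ H) (tens P (L ⊓ H) (fun _ => 1) (cj b θs)) (cj b ll)
    rw [e5]
    exact (blk_cj T2 hb _ ll).symm
  have h1 : ∀ i j, (B i ∩ B j).Nonempty → B i = B j ∧ B' i = B' j := by
    rintro i j ⟨χ, hi, hj⟩
    obtain ⟨hθ, hinv, hGC, hθh, hl⟩ := i.2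
    obtain ⟨hθ', hinv', hGC', hθh', hl'⟩ := j.2
    obtain ⟨b, hb, e1, e2⟩ := blk_conj hp T1 hl hl' hθ hθ' hθh hθh' hi hj
    exact key i j b hb e1 e2
  have hθs : ∀ i : G3Idx p L P, i.1.2.1 ∈ IrrS (L ⊓ H) := fun i => hC ▸ i.2.2.2.1.2.1
  have h2 : ∀ i j, (B' i ∩ B' j).Nonempty → B i = B j ∧ B' i = B' j := by
    rintro i j ⟨ψ, hi, hj⟩
    obtain ⟨b, hb, e1, e2⟩ := blk_conj hp T2 i.2.2.2.2.2 j.2.2.2.2.2 (hθs i) (hθs j) (canExt_triv p hcomm hPC (hθs i))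
      (canExt_triv p hcomm hPC (hθs j)) hi hj
    refine key i j b hb ?_ e2
    have h3 : GC p L (P : Set G) (cj b i.1.1) j.1.2.1 := e1 ▸ gc_cj (hnL b) (hnP b hb) i.2.2.2.1
    exact hgc.inj _ _ _ j.2.2.1 (hinvcj hb i.2.2.1) j.2.2.2.1 h3
  have h3 : ∀ i, ∃ f : (G → ℂ) → (G → ℂ), Set.BijOn f (B i) (B' i) ∧ ∀ χ ∈ B i, Rel p H x χ (f χ) := fun i =>
    block_bij3 hp h hgc hcore i.2.1 i.2.2.1 i.2.2.2.1 i.2.2.2.2.1 i.2.2.2.2.2
  obtain ⟨f, hf, hR⟩ := glue B B' (Rel p H x) h1 h2 h3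
  have hU : (⋃ i, B i) = {χ | χ ∈ IrrS ⊤ ∧ ∃ θ ∈ IrrS L, (∀ u ∈ P, cj u θ = θ) ∧ Over L χ θ} := by
    ext χ
    rw [Set.mem_iUnion]
    constructor
    · rintro ⟨i, hi⟩
      exact ⟨hi.1, i.1.1, i.2.1, i.2.2.1, blk_over hp T1 i.2.2.2.2.2 i.2.1 i.2.2.2.2.1 hi⟩
    · rintro ⟨hχ, θ, hθ, hinv, hov⟩
      obtain ⟨θh, hθh⟩ := hcan θ hθ hinv
      obtain ⟨θs, hGC⟩ := hgc.ex θ hθ hinv
      obtain ⟨ll, hl, hb⟩ := blk_cover hp T1 hθ hθh hχ hov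
      exact ⟨⟨⟨θ, θs, θh, ll⟩, hθ, hinv, hGC, hθh, hl⟩, hb⟩
  have hU' : (⋃ i, B' i) = IrrS (Subgroup.normalizer (P : Set G)) := by
    ext ψ
    rw [Set.mem_iUnion]
    constructor
    · rintro ⟨i, hi⟩
      exact hi.1
    · intro hψ
      obtain ⟨θs, hθs', hov⟩ := under_exists T2.hLK hψ
      obtain ⟨θ, hinv, hGC⟩ := hgc.surj θs (hC.symm ▸ hθs')
      obtain ⟨θh, hθh⟩ := hcan θ hGC.1 hinv
      obtain ⟨ll, hl, hb⟩ := blk_cover hp T2 hθs' (canExt_triv p hcomm hPC hθs') hψ hov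
      exact ⟨⟨⟨θ, θs, θh, ll⟩, hGC.1, hinv, hGC, hθh, hl⟩, hb⟩
  rw [hU, hU'] at hf
  refine ⟨f, hf, fun χ hχ => hR χ ?_⟩
  rw [hU]
  exact hχ

end Pool.Agent.Lib.H88C
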