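import Pool.Agent.Lib.H90Q.C9
import Pool.Agent.Lib.H90Q.K03
import Pool.Agent.Lib.H90Q.F1
import Pool.Agent.Lib.H88C.G1
import Pool.Agent.Lib.H88C.F5
import Pool.Agent.Lib.H88B.Z8

/-!
# MP_a8e959_al: the core without a hypothesis on the automiser
-/

open scoped Classical ComplexConjugate BigOperators

noncomputable section

namespace Pool.Agent.Lib.H88C

open Pool.Agent.Lib.H90Q Pool.Agent.Lib.H88B

variable {G : Type*} [Group G] [Fintype G]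

/-- A canonical extension in the sense of `CanP` is one in the sense of `CanExt`. -/
theorem canExt_of_canP2 {p : ℕ} {L P : Subgroup G} {θ Θ : G → ℂ} (h : CanP p L P θ Θ) : CanExt p P L θ Θ := by
  refine ⟨?_, h.1.ext, fun u hu => ?_⟩
  · rw [sup_comm]
    exact h.1.irr
  · obtain ⟨ψ, ε, hε, hgc, -, hv⟩ := h.1.val u hu
    obtain ⟨n, hn, hn1⟩ := irrS_one hgc.2.1
    have h1 := hv 1 (Subgroup.one_mem _)
    rw [mul_one, hn1] at h1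
    have hn0 : (n : ℂ) ≠ 0 := by exact_mod_cast hn.ne'
    have hε0 : (ε : ℂ) ≠ 0 := by
      rcases hε with rfl | rfl <;> norm_num
    refine ⟨?_, ?_, fun h2 => h.2 h2 u hu⟩
    · rw [h1]
      exact mul_ne_zero hε0 hn0
    · rw [h1, map_mul, map_natCast, map_intCast]

/-- Conjugates of `x` by elements of `H` have the same centraliser in `L` as `P`. -/
theorem good_conj3 {p : ℕ} [Fact p.Prime] {L P H : Subgroup G} {x : G} (hs : Setup3 p L P H x) {h : G} (hh : h ∈ H) :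
    CM L {h * x * h⁻¹} = CM L (P : Set G) := (F4_z3 hs hh).2.2.trans (F4_C3 hs).symm

/-- **The core.** -/
theorem core_stmt3 {p : ℕ} [Fact p.Prime] {L P H : Subgroup G} {x : G} (hs : Setup3 p L P H x) : CoreStmt2 p L P H x := by
  intro S hSH hCS θ θs θh hθ hinv hGC hθh hSθ
  have hp : p.Prime := Fact.out
  have hnL : ∀ g, Nz g L := fun g => F4_nzL3 hs g
  have hPn : ∀ z ∈ P, Nz z L := fun z _ => hnL z
  have hPp : ∀ z ∈ P, ∃ a : ℕ, z ^ (p ^ a) = 1 := by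
    intro z hz
    obtain ⟨k, hk⟩ := hs.hPp ⟨z, hz⟩
    exact ⟨k, congrArg Subtype.val hk⟩
  obtain ⟨Θ, hΘ⟩ := canP_exists hs.hLp hPn hPp hs.hPab hθ hinv
  have e : θh = Θ := canExt_unique hp hs.hLp hs.hPp hs.hPab hPn hθ hθh (canExt_of_canP2 hΘ)
  subst e
  have hΘcf := cf_charS (charS_of_irrS hΘ.1.irr)
  have hΘS : ∀ s ∈ S, cj s θh = θh := by
    intro s hs'
    have h1 := canP_cj (hnL s) (F4_nzP3 hs (hSH hs')) hΘ
    rw [hSθ s hs'] at h1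
    exact canP_unique hs.hLp hPn hPp hs.hPab hθ h1 hΘ
  have hgc : GCBij p L P := gcBij hs.hLp hPn hPp hs.hPab
  have hθsS : ∀ s ∈ S, cj s θs = θs := fun s hs' =>
    (gc_inv_iff hgc (hnL s) (F4_nzP3 hs (hSH hs')) hinv hGC).1 (hSθ s hs')
  obtain ⟨hnM, hTM, hMU⟩ := F4_T3 hs hSH
  haveI hMn : (L ⊔ P).Normal := ⟨fun y hy g => (hnM g y).1 hy⟩
  have hCP : CM L (P : Set G) = L ⊓ H := F4_C3 hs
  have hLS : L ⊓ S = L ⊓ H := le_antisymm (inf_le_inf_left L hSH) (le_inf inf_le_left hCS)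
  have hMS : (L ⊔ P) ⊓ S = L ⊓ S := by
    refine le_antisymm (fun y hy => ?_) (inf_le_inf_right S le_sup_left)
    have h1 : y ∈ (L ⊔ P) ⊓ (L ⊔ S) := ⟨hy.1, Subgroup.mem_sup_right hy.2⟩
    rw [hMU] at h1
    exact ⟨h1, hy.2⟩
  have hSp : ¬ p ∣ Nat.card S := fun hd => hs.hHp (hd.trans (Subgroup.card_dvd_of_le hSH))
  have hgx : ∀ h ∈ H, CM L {h * x * h⁻¹} = CM L (P : Set G) := fun h hh => good_conj3 hs hh
  have hgx1 : ∃ x ∈ P, CM L {x} = CM L (P : Set G) := ⟨_, (F4_z3 hs H.one_mem).1, hgx 1 H.one_mem⟩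
  obtain ⟨ε, hε, η, hη, hres, hval⟩ := bridge_exists3 hnL (fun s hs' => F4_nzP3 hs (hSH hs')) hs.hLp hSp hPp hs.hPab (hLS.trans hCP.symm) hMS hθ hinv hGC hΘ hgx1 hΘS hθsS
  have hθsI : θs ∈ IrrS ((L ⊔ P) ⊓ S) := by
    rw [hMS, hLS, ← hCP]
    exact hGC.2.1
  have hb := bridge_bij hΘ.1.irr hθsI hΘS hθsS hη hres
  rw [hMS, hLS] at hb
  have e1 : ({α | α ∈ IrrS (L ⊔ P ⊔ S) ∧ Over (L ⊔ P) α θh} : Set (G → ℂ)) = {α | α ∈ IrrS (P ⊔ L ⊔ S) ∧ Over (P ⊔ L) α θh} := by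
    rw [sup_comm L P]
  rw [e1] at hb
  refine ⟨ε, hε, Function.invFunOn (al (L ⊔ P) S η) {β | β ∈ IrrS S ∧ Over (L ⊓ H) β θs}, hb.symm hb.invOn_invFunOn.symm, ?_⟩
  intro α hα hαo
  obtain ⟨β, ⟨hβ, hβo⟩, hβα⟩ := hb.surjOn ⟨hα, hαo⟩
  have hinvf : Function.invFunOn (al (L ⊔ P) S η) {β | β ∈ IrrS S ∧ Over (L ⊓ H) β θs} α = β := by
    rw [← hβα]
    exact hb.invOn_invFunOn.1 ⟨hβ, hβo⟩
  refine ⟨?_, fun h hh u hu hux => ?_⟩
  · -- the degree: the restriction to `L S` is irreducible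
    have hαm : α ∈ irrOver (L ⊔ P ⊔ S) (L ⊔ P) θh := by
      rw [mem_irrOver, sup_comm L P]
      exact ⟨hα, hαo⟩
    have hΘT : ∀ t ∈ L ⊔ P ⊔ S, cj t θh = θh := by
      intro t ht
      obtain ⟨m, hm, u, hu, rfl⟩ := hTM t ht
      obtain ⟨l, hl, s, hs', rfl⟩ := (F4_mem3 hs).1 hu
      rw [← cj_cj, ← cj_cj, hΘS s hs', cj_mem ((le_sup_left : L ≤ L ⊔ P) hl) hΘcf, cj_mem hm hΘcf]
    have hMT : L ⊔ P ≤ L ⊔ P ⊔ S := le_sup_left
    have hUT : L ⊔ S ≤ L ⊔ P ⊔ S := sup_le (le_sup_left.trans le_sup_left) le_sup_right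
    have hres' := res_bij hMT hUT hTM hMU (fun t _ => hnM t) hΘ.1.irr hθ hΘ.1.ext hΘT
    have h1 : rs (L ⊔ S) α ∈ IrrS (L ⊔ S) := (mem_irrOver.1 (hres'.mapsTo (Finset.mem_coe.2 hαm))).1
    obtain ⟨n, -, hn, hd⟩ := irr_dvd h1.2
    refine ⟨n, ?_, fun hpn => F4_card3 hs hSH (hpn.trans hd)⟩
    have h2 : rs (L ⊔ S) α 1 = α 1 := if_pos (Subgroup.one_mem _)
    rw [← h2]
    exact hn
  · have hz := (F4_z3 hs hh).1
    obtain ⟨ψ, hψ, hψe, hψv⟩ := hval _ hz (hgx h hh) u hu hux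
    rw [hinvf, ← hβα]
    refine bridge_val hθsI hθsS hβ ?_ (Subgroup.mem_sup_right hz) hu hψ hψe hψv
    rw [hMS, hLS]
    exact hβo

end Pool.Agent.Lib.H88C
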